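import Pool.Agent.Helper15.PE.St

/-!
# Project PE, module DES: the move is an involution, the number of descents changes by at most one
-/

set_option autoImplicit false
open Classical

namespace Pool.Agent.Helper48.PE

open Pool.Agent.Helper15.PE
open Pool.Agent.Helper14.J1 (IsLE desN desN_eq)

theorem sw_mul {N : ℕ} (p : Fin N) : sw p * sw p = 1 := by
  unfold sw
  exact Equiv.swap_mul_self _ _

theorem hInv : StInv := by
  intro N le p σ
  by_cases h : IsLE le (σ.1 * sw p)
  · have h1 : mv le p σ = ⟨σ.1 * sw p, h⟩ := by
      unfold mv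
      rw [dif_pos h]
    rw [h1]
    have h2 : IsLE le ((⟨σ.1 * sw p, h⟩ : LX le).1 * sw p) := by
      show IsLE le (σ.1 * sw p * sw p)
      rw [mul_assoc, sw_mul, mul_one]
      exact σ.2
    unfold mv
    rw [dif_pos h2]
    apply Subtype.ext
    show σ.1 * sw p * sw p = σ.1
    rw [mul_assoc, sw_mul, mul_one]
  · have h1 : mv le p σ = σ := by
      unfold mv
      rw [dif_neg h]
    rw [h1, h1]

section
variable {N : ℕ} (σ : Equiv.Perm (Fin (N + 1))) (p j : Fin N)

theorem fix1 (h1 : j ≠ p) (h2 : j.val ≠ p.val + 1) :
    (σ * sw p) j.castSucc = σ j.castSucc := by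
  rw [Equiv.Perm.mul_apply]
  unfold sw
  rw [Equiv.swap_apply_of_ne_of_ne]
  · intro h
    exact h1 (Fin.castSucc_injective _ h)
  · intro h
    apply h2
    have := congrArg Fin.val h
    simpa using this

theorem fix2 (h1 : j ≠ p) (h2 : j.val + 1 ≠ p.val) :
    (σ * sw p) j.succ = σ j.succ := by
  rw [Equiv.Perm.mul_apply]
  unfold sw
  rw [Equiv.swap_apply_of_ne_of_ne]
  · intro h
    apply h2
    have := congrArg Fin.val h
    simpa using this
  · intro h
    exact h1 (Fin.succ_injective _ h)

theorem sw_left : (σ * sw p) p.castSucc = σ p.succ := by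
  rw [Equiv.Perm.mul_apply]
  unfold sw
  rw [Equiv.swap_apply_left]

theorem sw_right : (σ * sw p) p.succ = σ p.castSucc := by
  rw [Equiv.Perm.mul_apply]
  unfold sw
  rw [Equiv.swap_apply_right]

end

theorem card_le_one' {N : ℕ} (c : ℕ) (f : Fin N → ℕ) (hf : ∀ a b, f a = f b → a = b) :
    ((Finset.univ : Finset (Fin N)).filter (fun j => f j = c)).card ≤ 1 := by
  rw [Finset.card_le_one]
  intro a ha b hb
  rw [Finset.mem_filter] at ha hb
  exact hf a b (ha.2.trans hb.2.symm)

theorem hDes : StDes := by
  intro N σ p
  rw [desN_eq, desN_eq]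
  have hne : σ p.succ ≠ σ p.castSucc := by
    intro h
    have h1 := σ.injective h
    have h2 := congrArg Fin.val h1
    simp at h2
  rcases lt_or_gt_of_ne hne with hba | hab
  · -- the letters at `p`, `p + 1` form a descent
    have hsub : (Finset.univ.filter (fun j : Fin N => σ j.succ < σ j.castSucc)) ⊆
        insert p (Finset.univ.filter (fun j : Fin N =>
          (σ * sw p) j.succ < (σ * sw p) j.castSucc)) := by
      intro j hj
      rw [Finset.mem_filter] at hj
      rw [Finset.mem_insert, Finset.mem_filter]
      by_cases hjp : j = p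
      · exact Or.inl hjp
      right
      refine ⟨Finset.mem_univ _, ?_⟩
      by_cases h1 : j.val = p.val + 1
      · have e1 : j.castSucc = p.succ := Fin.ext (by simpa using h1)
        rw [fix2 σ p j hjp (by omega), e1, sw_right]
        have h2 := hj.2
        rw [e1] at h2
        exact h2.trans hba
      by_cases h2 : j.val + 1 = p.val
      · have e1 : j.succ = p.castSucc := Fin.ext (by simpa using h2)
        rw [fix1 σ p j hjp h1, e1, sw_left]
        have h3 := hj.2
        rw [e1] at h3
        exact hba.trans h3
      rw [fix1 σ p j hjp h1, fix2 σ p j hjp h2]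
      exact hj.2
    exact (Finset.card_le_card hsub).trans (Finset.card_insert_le _ _)
  · have hsub : (Finset.univ.filter (fun j : Fin N => σ j.succ < σ j.castSucc)) ⊆
        ((Finset.univ.filter (fun j : Fin N =>
          (σ * sw p) j.succ < (σ * sw p) j.castSucc)).erase p) ∪
        ((Finset.univ.filter (fun j : Fin N => j.val = p.val + 1)) ∪
          (Finset.univ.filter (fun j : Fin N => j.val + 1 = p.val))) := by
      intro j hj
      rw [Finset.mem_filter] at hj
      rw [Finset.mem_union, Finset.mem_union, Finset.mem_erase, Finset.mem_filter,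
        Finset.mem_filter, Finset.mem_filter]
      by_cases h1 : j.val = p.val + 1
      · exact Or.inr (Or.inl ⟨Finset.mem_univ _, h1⟩)
      by_cases h2 : j.val + 1 = p.val
      · exact Or.inr (Or.inr ⟨Finset.mem_univ _, h2⟩)
      left
      have hjp : j ≠ p := by
        intro h
        rw [h] at hj
        exact lt_asymm hj.2 hab
      refine ⟨hjp, Finset.mem_univ _, ?_⟩
      rw [fix1 σ p j hjp h1, fix2 σ p j hjp h2]
      exact hj.2
    have hp : p ∈ Finset.univ.filter (fun j : Fin N =>
        (σ * sw p) j.succ < (σ * sw p) j.castSucc) := by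
      rw [Finset.mem_filter]
      refine ⟨Finset.mem_univ _, ?_⟩
      rw [sw_left, sw_right]
      exact hab
    have h1 := Finset.card_le_card hsub
    have h2 := Finset.card_union_le ((Finset.univ.filter (fun j : Fin N =>
          (σ * sw p) j.succ < (σ * sw p) j.castSucc)).erase p)
        ((Finset.univ.filter (fun j : Fin N => j.val = p.val + 1)) ∪
          (Finset.univ.filter (fun j : Fin N => j.val + 1 = p.val)))
    have h3 := Finset.card_union_le (Finset.univ.filter (fun j : Fin N => j.val = p.val + 1))
          (Finset.univ.filter (fun j : Fin N => j.val + 1 = p.val))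
    have h4 := card_le_one' (p.val + 1) (fun j : Fin N => j.val) (fun a b h => Fin.ext h)
    have h5 := card_le_one' p.val (fun j : Fin N => j.val + 1)
      (fun a b h => Fin.ext (by simpa using h))
    have h6 := Finset.card_erase_add_one hp
    omega

end Pool.Agent.Helper48.PE
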